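import Pool.Agent.WR2.StmtsC

set_option autoImplicit false

/-!
# WR2, row ITR
-/

namespace Pool.Agent.WR2.H19

open Pool.Agent.WIR Pool.Agent.WR2
open scoped BigOperators

lemma av_mono (N : ℕ) (f g : ℕ → ℝ) (h : ∀ m, f m ≤ g m) : av N f ≤ av N g := by
  unfold av
  apply div_le_div_of_nonneg_right (Finset.sum_le_sum fun m _ => h m)
  positivity

lemma av_add (N : ℕ) (f g : ℕ → ℝ) : av N (fun m => f m + g m) = av N f + av N g := by
  unfold av
  rw [Finset.sum_add_distrib, add_div]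

lemma Lop_abs (f g : ℕ → ℝ) (m : ℕ) : |Lop f m - Lop g m| ≤ Lop (fun m => |f m - g m|) m := by
  unfold Lop
  split_ifs with h
  · have e : (f (2 * m) + 3 * f ((2 * m - 1) / 3)) / 2 - (g (2 * m) + 3 * g ((2 * m - 1) / 3)) / 2 =
        ((f (2 * m) - g (2 * m)) + 3 * (f ((2 * m - 1) / 3) - g ((2 * m - 1) / 3))) / 2 := by ring
    rw [e, abs_div, abs_of_pos (by norm_num : (0 : ℝ) < 2)]
    apply div_le_div_of_nonneg_right _ (by norm_num)
    refine (abs_add_le _ _).trans ?_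
    rw [abs_mul, abs_of_pos (by norm_num : (0 : ℝ) < 3)]
  · have e : (f (2 * m) + 0) / 2 - (g (2 * m) + 0) / 2 = (f (2 * m) - g (2 * m)) / 2 := by ring
    rw [e, abs_div, abs_of_pos (by norm_num : (0 : ℝ) < 2), add_zero]

lemma Lv_diff {N : ℕ} {f g : ℕ → ℝ} (hf : Lv N f) (hg : Lv N g) : Lv N (fun m => |f m - g m|) := by
  intro m hm
  show |f (m + 3 ^ N) - g (m + 3 ^ N)| = |f m - g m|
  rw [hf m hm, hg m hm]

theorem itr (hAVA : AvaStmt) (hLOP : LopStmt) (hWRB : WrbStmt) (hONE : OneStmt) : ItrStmt := by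
  intro A
  obtain ⟨C, hC1, hC⟩ := hONE A
  refine ⟨C, hC1, ?_⟩
  intro r s
  obtain ⟨hwL, -⟩ := hWRB.2.1 r
  have hwN : ∀ N, r ≤ N → Lv N (wr r) := fun N hN => (hAVA.1 r N _ hwL hN).1
  induction s with
  | zero =>
    refine ⟨hwL, ?_⟩
    unfold av
    simp
  | succ s ih =>
    obtain ⟨ih1, ih2⟩ := ih
    have e : Lop^[s + 1] (wr r) = Lop (Lop^[s] (wr r)) := Function.iterate_succ_apply' _ _ _
    rw [e]
    have hL := (hLOP.1 (r + s) _ ih1).1
    refine ⟨hL, ?_⟩
    have hd := Lv_diff ih1 (hwN (r + s) (by omega))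
    have hL1 : Lv (r + 1) (Lop (wr r)) := (hLOP.1 r _ hwL).1
    have hd1 := Lv_diff hL1 (hwN (r + 1) (by omega))
    have h1 : av (r + (s + 1)) (fun m => |Lop (Lop^[s] (wr r)) m - wr r m|) ≤
        av (r + (s + 1)) (fun m => Lop (fun m => |Lop^[s] (wr r) m - wr r m|) m
          + |Lop (wr r) m - wr r m|) := by
      apply av_mono
      intro m
      have h2 := Lop_abs (Lop^[s] (wr r)) (wr r) m
      have h3 : Lop (Lop^[s] (wr r)) m - wr r m =
          (Lop (Lop^[s] (wr r)) m - Lop (wr r) m) + (Lop (wr r) m - wr r m) := by ring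
      rw [h3]
      exact (abs_add_le _ _).trans (by linarith)
    refine h1.trans ?_
    rw [av_add]
    have h4 : av (r + (s + 1)) (fun m => Lop (fun m => |Lop^[s] (wr r) m - wr r m|) m) ≤
        s * C / ((r : ℝ) + 1) ^ A := by
      have h5 := (hLOP.1 (r + s) _ hd).2
      have h6 : av (r + (s + 1)) (fun m => Lop (fun m => |Lop^[s] (wr r) m - wr r m|) m) =
          av (r + s) (fun m => |Lop^[s] (wr r) m - wr r m|) := h5
      rw [h6]
      exact ih2
    have h7 : av (r + (s + 1)) (fun m => |Lop (wr r) m - wr r m|) ≤ C / ((r : ℝ) + 1) ^ A := by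
      rw [(hAVA.1 (r + 1) (r + (s + 1)) _ hd1 (by omega)).2]
      exact hC r
    have h8 : ((s + 1 : ℕ) : ℝ) * C / ((r : ℝ) + 1) ^ A =
        s * C / ((r : ℝ) + 1) ^ A + C / ((r : ℝ) + 1) ^ A := by
      push_cast
      ring
    rw [h8]
    exact add_le_add h4 h7

end Pool.Agent.WR2.H19
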